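import Pool.Agent.Lib.MP_1a91b9_nuX.DY.Val
import Pool.Agent.Lib.MP_1a91b9_nuX.DH.Lev
import Pool.Agent.Lib.MP_1a91b9_nuX.DH.Triv
import Pool.Agent.Lib.MP_1a91b9_nuX.DB.VT
import Pool.Agent.Lib.MP_1a91b9_nuX.DH.Loc
import Pool.Agent.Lib.MP_1a91b9_nuX.DH.Fs
import Pool.Agent.Lib.MP_1a91b9_nuX.DH.Dv

/-!
# DY: an approximate local parameter for a locally trivial cocycle (split case)

Port of MP_1a91b9_nuT/DY/TcT.lean to the curves `y² = x³ + D`.
-/

set_option autoImplicit false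

namespace Pool.Agent.Lib.MP_1a91b9_nuX.DY

variable [Pool.Agent.Lib.MP_1a91b9_nuT.CD]

open NumberField IsDedekindDomain WeierstrassCurve Pool.Agent.Lib.MP_1a91b9_nuT
open Pool.Agent.Lib.MP_1a91b9_nuX.DB Pool.Agent.Lib.MP_1a91b9_nuX.DX

universe u

variable [HC]

open Pool.Agent.Lib.MP_1a91b9_nuX.DH

section
variable {F N N₂ L : Type u} [Field F] [NumberField F] [Algebra K F] [Field N] [NumberField N]
  [Algebra K N] [Field N₂] [NumberField N₂] [Algebra K N₂] [Field L] [NumberField L] [Algebra K L]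
  [Algebra F N] [Algebra F N₂] [Algebra F L] [Algebra N L] [Algebra N₂ L]
  [IsScalarTower K F N] [IsScalarTower K F N₂] [IsScalarTower K F L] [IsScalarTower K N L]
  [IsScalarTower K N₂ L] [IsScalarTower F N L] [IsScalarTower F N₂ L]
  [DecidableEq F] [DecidableEq N] [DecidableEq N₂] [DecidableEq L]
  [IsGalois F N] [IsGalois F N₂] [IsGalois F L]

  {ϖ : 𝓞 K} {ℓ q : ℕ} {P₀ : Pt N} {P₂ : Pt N₂} {ζ : L} {κ : Gal(L/F) → Pt L}
  (D : TC ϖ ℓ q P₀ P₂ ζ κ)
include D

theorem tc_T (W : HeightOneSpectrum (𝓞 L)) (hloc : LocSol κ W)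
    (hW : W.valuation L (algebraMap K L (cj ϖ : K)) < 1) :
    ∃ T : L, W.valuation L T ≤ 1 ∧ ∀ σ : Gal(L/N), gpl σ W = W → ∀ x : 𝓞 K,
      κ (toF F σ) = sm L x (up L P₂) → ¬ cj ϖ ∣ x →
        W.valuation L (σ T - T) = W.valuation L (tc (up L P₂)) := by
  obtain ⟨M, iM1, iM2, iM3, iM4, iM5, v, P, hv, hd, hf⟩ := hloc
  have hβ : PD (cj ϖ) ℓ q := pd_cj D.pd
  have hR : Ord (cj ϖ) (up L P₂) := (ord_up L).2 D.full₂.ord
  have hKR : Ker (W.valuation L) (up L P₂) := 
    ker_of_val _ hβ.prime hR hW (hβ.bad_pi hW)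
  obtain ⟨c, hc, hS⟩ := exists_ker_cM hβ W v hv hd hR hW P
  obtain ⟨S, hSd⟩ : ∃ S : Pt M, S = sm M c P := ⟨_, rfl⟩
  rw [← hSd] at hS
  have htc0 : tc (up L P₂) ≠ 0 := by
    intro h0
    have h7 : up L P₂ = 0 := ker_tc_zero _ hKR h0
    have h8 : cj ϖ ∣ (1 : 𝓞 K) := by
      rw [← hR 1, h7, map_zero]
    exact hβ.prime.not_isUnit (isUnit_of_dvd_one h8)
  have hlt0 : W.valuation L (tc (up L P₂)) < 1 := ker_tc_lt _ hKR
  obtain ⟨k, hk⟩ : ∃ k : ℕ, W.valuation L (tc (up L P₂)) = WithZero.exp (-(k : ℤ)) := by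
    have h1 := val_eq W htc0
    have h2 : 0 < od W (tc (up L P₂)) := by
      rw [h1, ← WithZero.exp_zero, WithZero.exp_lt_exp] at hlt0
      omega
    refine ⟨(od W (tc (up L P₂))).toNat, ?_⟩
    rw [h1, Int.toNat_of_nonneg h2.le]
  obtain ⟨T, hT⟩ := hd (tc S) (k + 1)
  have hlt : (WithZero.exp (-((k + 1 : ℕ) : ℤ)) : WithZero (Multiplicative ℤ)) <
      WithZero.exp (-(k : ℤ)) := by
    rw [WithZero.exp_lt_exp]
    push_cast
    omega
  have hlt1 : (WithZero.exp (-((k + 1 : ℕ) : ℤ)) : WithZero (Multiplicative ℤ)) < 1 := by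
    rw [← WithZero.exp_zero, WithZero.exp_lt_exp]
    push_cast
    omega
  have h2L : W.valuation L (2 : L) = 1 := by
    have h3 : ¬ cj ϖ ∣ ((2 : ℤ) : 𝓞 K) := by
      rw [hβ.dvd_int_iff]
      intro h4
      have h5 := Int.le_of_dvd (by norm_num) h4
      have := hβ.five
      omega
    have h4 := pd_val_coprime hβ (w := W) hW h3
    have h5 : algebraMap K L ((((2 : ℤ) : 𝓞 K) : K)) = (2 : L) := by
      have h6 : ((((2 : ℤ) : 𝓞 K) : K)) = ((2 : ℤ) : K) := by
        change algebraMap (𝓞 K) K ((2 : ℤ) : 𝓞 K) = _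
        rw [map_intCast]
      rw [h6, map_intCast]
      norm_num
    rw [h5] at h4
    exact h4
  have h2M : v (2 : M) = 1 := by
    have h3 := hv (2 : L)
    rw [h2L, map_ofNat] at h3
    exact h3
  have hvT : v (algebraMap L M T) < 1 := by
    have h1 : algebraMap L M T = tc S - (tc S - algebraMap L M T) := by ring
    rw [h1]
    exact lt_of_le_of_lt (v.map_sub _ _) (max_lt (ker_tc_lt v hS) (lt_of_le_of_lt hT hlt1))
  refine ⟨T, ?_, fun σ hσ x hx hxd => ?_⟩
  · rw [← hv]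
    exact hvT.le
  · have hσ' : gpl (toF F σ) W = W := hσ
    obtain ⟨f, hfv, hfL, hfP⟩ := hf (toF F σ) hσ'
    have hKs : Ker v (pm f S) := by
      rcases hS with h1 | h1
      · left
        rw [h1, map_zero]
      · right
        rw [xc_pm, hfv]
        exact h1
    have htc : tc (pm f S) = f (tc S) := tc_pm f S
    have hdiff : pm f S - S = pm (IsScalarTower.toAlgHom K L M) (sm L (c * x) (up L P₂)) := by
      have h3 : sm L (c * x) (up L P₂) = sm L c (κ (toF F σ)) := by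
        rw [hx, map_mul]
        rfl
      rw [h3, pm_sm, ← hfP, map_sub, ← pm_sm, ← hSd]
    have hcd : ¬ cj ϖ ∣ c * x := by
      intro h12
      rcases hβ.prime.dvd_or_dvd h12 with h13 | h13
      · exact hc h13
      · exact hxd h13
    have hmain : v (f (tc S) - tc S) = WithZero.exp (-(k : ℤ)) := by
      rw [← htc, ← tc_sub v h2M hKs hS, hdiff, tc_pm]
      have h1 := hv (tc (sm L (c * x) (up L P₂)))
      rw [val_sm hβ hR W hW hcd, hk] at h1
      exact h1
    have hsum : algebraMap L M (σ T - T) = (f (tc S) - tc S) +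
        ((tc S - algebraMap L M T) - f (tc S - algebraMap L M T)) := by
      have h1 : f (algebraMap L M T) = algebraMap L M (σ T) := hfL T
      rw [map_sub, map_sub, h1]
      ring
    have hsmall : v ((tc S - algebraMap L M T) - f (tc S - algebraMap L M T)) <
        v (f (tc S) - tc S) := by
      rw [hmain]
      refine lt_of_le_of_lt (v.map_sub _ _) (max_lt ?_ ?_)
      · exact lt_of_le_of_lt hT hlt
      · rw [hfv]
        exact lt_of_le_of_lt hT hlt
    rw [← hv (σ T - T), hsum, v.map_add_eq_of_lt_left hsmall, hmain, hk]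

end

end Pool.Agent.Lib.MP_1a91b9_nuX.DY
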