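import Pool.Agent.Lib.MP_1a91b9_nuX.DX.Top
import Pool.Agent.Lib.MP_1a91b9_nuX.DH.Sat

/-!
# DY: some valuations

Port of MP_1a91b9_nuT/DY/Val.lean to the curves `y² = x³ + D`.
-/

set_option autoImplicit false

namespace Pool.Agent.Lib.MP_1a91b9_nuX.DY

variable [Pool.Agent.Lib.MP_1a91b9_nuT.CD]

open NumberField IsDedekindDomain WeierstrassCurve Pool.Agent.Lib.MP_1a91b9_nuT
open Pool.Agent.Lib.MP_1a91b9_nuX.DB Pool.Agent.Lib.MP_1a91b9_nuX.DX

universe u

variable [HC]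

/-- `1 - ζ ^ j` is a multiple of `1 - ζ` -/
private theorem valA_le {L : Type u} [Field L] [NumberField L] {ζ' : L}
    {w : HeightOneSpectrum (𝓞 L)} (h1 : w.valuation L ζ' ≤ 1) (j : ℕ) :
    w.valuation L (1 - ζ' ^ j) ≤ w.valuation L (1 - ζ') := by
  have e : 1 - ζ' ^ j = (1 - ζ') * ∑ i ∈ Finset.range j, ζ' ^ i := by
    rw [mul_neg_geom_sum]
  rw [e, map_mul]
  refine mul_le_of_le_one_right' ?_
  refine Valuation.map_sum_le _ fun i _ => ?_
  rw [map_pow]
  exact pow_le_one' h1 i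

private theorem valA_eq {L : Type u} [Field L] [NumberField L] {ℓ : ℕ} (hℓ : ℓ.Prime) {ζ' : L}
    (hζ : IsPrimitiveRoot ζ' ℓ) (w : HeightOneSpectrum (𝓞 L)) {j : ℕ} (hj : ¬ ℓ ∣ j) :
    w.valuation L (1 - ζ' ^ j) = w.valuation L (1 - ζ') := by
  have h0 : w.valuation L (ζ' ^ ℓ) = 1 := by rw [hζ.pow_eq_one, map_one]
  have h1 : w.valuation L ζ' = 1 := by
    rw [map_pow] at h0
    exact (pow_eq_one_iff_of_nonneg zero_le hℓ.ne_zero).1 h0
  refine le_antisymm (valA_le h1.le j) ?_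
  have hc : Nat.Coprime j ℓ := ((Nat.Prime.coprime_iff_not_dvd hℓ).2 hj).symm
  have h2 : IsPrimitiveRoot (ζ' ^ j) ℓ := hζ.pow_of_coprime j hc
  have : NeZero ℓ := ⟨hℓ.ne_zero⟩
  obtain ⟨i, -, hi⟩ := h2.eq_pow_of_pow_eq_one hζ.pow_eq_one
  have h3 : w.valuation L (ζ' ^ j) ≤ 1 := by rw [map_pow, h1, one_pow]
  have h4 := valA_le h3 i
  rwa [hi] at h4

theorem od_root {L : Type u} [Field L] [NumberField L] {ℓ : ℕ} (hℓ : ℓ.Prime) {ξ : L}
    (hξ : ξ ^ ℓ = 1) (hξ1 : ξ ≠ 1) (W : HeightOneSpectrum (𝓞 L)) :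
    ((ℓ : ℤ) - 1) * od W (ξ - 1) = od W (ℓ : L) := by
  have hF : Fact ℓ.Prime := ⟨hℓ⟩
  have hζ : IsPrimitiveRoot ξ ℓ := by
    have h1 := IsPrimitiveRoot.orderOf ξ
    rwa [orderOf_eq_prime hξ hξ1] at h1
  have hne : ∀ k : ℕ, ¬ ℓ ∣ k → 1 - ξ ^ k ≠ 0 := by
    intro k hk h0
    exact hk ((hζ.pow_eq_one_iff_dvd k).1 (sub_eq_zero.1 h0).symm)
  have hod : ∀ k : ℕ, ¬ ℓ ∣ k → od W (1 - ξ ^ k) = od W (ξ - 1) := by
    intro k hk
    rw [od, od, valA_eq hℓ hζ W hk, Valuation.map_sub_swap]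
  obtain ⟨n, rfl⟩ : ∃ n, ℓ = n + 1 := ⟨ℓ - 1, by have := hℓ.one_lt; omega⟩
  have hp := hζ.prod_one_sub_pow_eq_order
  have hnd : ∀ k ∈ Finset.range n, ¬ (n + 1) ∣ k + 1 := by
    intro k hk hd
    have := Nat.le_of_dvd (Nat.succ_pos k) hd
    rw [Finset.mem_range] at hk
    omega
  have h2 : od W (((n + 1 : ℕ) : L)) = (n : ℤ) * od W (ξ - 1) := by
    push_cast
    rw [← hp, od_prod W _ _ (fun k hk => hne _ (hnd k hk)),
      Finset.sum_congr rfl (fun k hk => hod _ (hnd k hk)), Finset.sum_const, Finset.card_range,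
      nsmul_eq_mul]
  rw [h2]
  push_cast
  ring

theorem od_tcP {ϖ : 𝓞 K} {ℓ q : ℕ} (h : PD ϖ ℓ q) {F N L : Type u} [Field F] [NumberField F]
    [Algebra K F] [Field N] [NumberField N] [Algebra K N] [Field L] [NumberField L] [Algebra K L]
    [Algebra F N] [Algebra N L] [IsScalarTower K F N] [IsScalarTower K N L] [DecidableEq N]
    [DecidableEq L] [IsGalois F N]
    (hun : ∀ v : HeightOneSpectrum (𝓞 F), v.valuation F (ℓ : F) < 1 → od v (ℓ : F) = 1)
    {P₀ : Pt N} (hP₀ : Full F ϖ P₀) (W : HeightOneSpectrum (𝓞 L))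
    (hW : W.valuation L (algebraMap K L (ϖ : K)) < 1) :
    ((q : ℤ) - 1) * od W (tc (up L P₀)) = od W (ℓ : L) := by
  have hw : (W.under (𝓞 N)).valuation N (algebraMap K N (ϖ : K)) < 1 := by
    rw [← val_map_lt, ← IsScalarTower.algebraMap_apply K N L]
    exact hW
  obtain ⟨h1, h2, -⟩ := ram_N h hun hP₀ (W.under (𝓞 N)) hw
  have h3 := od_map (k := N) W (ℓ : N)
  rw [map_natCast] at h3
  rw [tc_up, od_map, h3, h1, h2]
  ring

theorem val_sm {L : Type u} [Field L] [NumberField L] [Algebra K L] [DecidableEq L]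
    {β : 𝓞 K} {ℓ q : ℕ} (h : PD β ℓ q) {R : Pt L} (hR : Ord β R) (W : HeightOneSpectrum (𝓞 L))
    (hW : W.valuation L (algebraMap K L (β : K)) < 1) {c : 𝓞 K} (hc : ¬ β ∣ c) :
    W.valuation L (tc (sm L c R)) = W.valuation L (tc R) := by
  have hKR : Ker (W.valuation L) R := 
    ker_of_val (W.valuation L) h.prime hR hW (h.bad_pi hW)
  refine le_antisymm (ker_sm_le (W.valuation L) hKR c) ?_
  obtain ⟨d, hd⟩ := h.inv hc
  have h6 : sm L d (sm L c R) = R := by
    have h7 : sm L (c * d) R = sm L 1 R := (hR.sm_eq_iff _ _).2 hd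
    rw [mul_comm, map_mul, map_one] at h7
    exact h7
  calc W.valuation L (tc R) = W.valuation L (tc (sm L d (sm L c R))) := by rw [h6]
    _ ≤ W.valuation L (tc (sm L c R)) :=
      ker_sm_le (W.valuation L) (ker_sm (W.valuation L) hKR c) d

/-- a nonzero integer is a power of `β` times an element prime to `β` -/
private theorem valC_pow {β : 𝓞 K} (hβ : Prime β) {n : ℕ} (hn : n ≠ 0) :
    ∃ (k : ℕ) (c : 𝓞 K), (n : 𝓞 K) = β ^ k * c ∧ ¬ β ∣ c := by
  have h0 : (n : 𝓞 K) ≠ 0 := Nat.cast_ne_zero.2 hn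
  have h1 : FiniteMultiplicity β (n : 𝓞 K) := FiniteMultiplicity.of_not_isUnit hβ.not_isUnit h0
  obtain ⟨c, hc, hcd⟩ := h1.exists_eq_pow_mul_and_not_dvd
  exact ⟨_, c, hc, hcd⟩

theorem exists_ker_c {F : Type u} [Field F] [NumberField F] [Algebra K F] [DecidableEq F]
    {β : 𝓞 K} {ℓ q : ℕ} (h : PD β ℓ q) (P : Pt F) : ∃ c : 𝓞 K, ¬ β ∣ c ∧
      ∀ v : HeightOneSpectrum (𝓞 F), v.valuation F (algebraMap K F (β : K)) < 1 →
        Ker (v.valuation F) (sm F c P) := by
  classical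
  have h0 : algebraMap K F (β : K) ≠ 0 := by
    rw [Ne, map_eq_zero]
    exact fun e => h.prime.ne_zero (RingOfIntegers.ext e)
  have hf := od_finite (F := F) h0
  have hpl : ∀ v : HeightOneSpectrum (𝓞 F), ∃ n : ℕ, 0 < n ∧
      (v.valuation F (algebraMap K F (β : K)) < 1 → Ker (v.valuation F) (n • P)) := by
    intro v
    by_cases hv : v.valuation F (algebraMap K F (β : K)) < 1
    · obtain ⟨n, h1, h2⟩ := exists_nsmul_ker v (h.bad_pi hv) P
      exact ⟨n, h1, fun _ => h2⟩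
    · exact ⟨1, Nat.one_pos, fun hv' => absurd hv' hv⟩
  choose N hN1 hN2 using hpl
  have hn : (∏ v ∈ hf.toFinset, N v) ≠ 0 := Finset.prod_ne_zero_iff.2 fun v _ => (hN1 v).ne'
  obtain ⟨k, c, hk, hc⟩ := valC_pow h.prime hn
  refine ⟨c, hc, ?_⟩
  intro v hv
  have hmem : v ∈ hf.toFinset := by
    rw [Set.Finite.mem_toFinset, Set.mem_ofPred_eq]
    exact ((val_lt_one_iff v h0).1 hv).ne'
  obtain ⟨m, hm⟩ := Finset.dvd_prod_of_mem N hmem
  have h1 : Ker (v.valuation F) ((∏ v ∈ hf.toFinset, N v) • P) := by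
    rw [hm, mul_comm, mul_nsmul']
    exact (ker_nsmul _ (hN2 v hv) m).1
  rw [← sm_nat, hk] at h1
  clear hk
  induction k with
  | zero => rwa [pow_zero, one_mul] at h1
  | succ k ih =>
    apply ih
    apply ker_sat h.prime v hv (h.bad_pi hv)
    rw [pow_succ', mul_assoc, map_mul] at h1
    exact h1

section
variable {L M : Type u} [Field L] [NumberField L] [Field M] [Algebra L M]

/-- approximation of an integral element by an integer of the number field -/
private theorem valD_int (W : HeightOneSpectrum (𝓞 L)) (v : Valuation M (WithZero (Multiplicative ℤ)))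
    (hv : ∀ x : L, v (algebraMap L M x) = W.valuation L x)
    (hd : ∀ (m : M) (n : ℕ), ∃ x : L, v (m - algebraMap L M x) ≤ WithZero.exp (-(n : ℤ)))
    {m : M} (hm : v m ≤ 1) : ∃ z : 𝓞 L, v (m - algebraMap L M (z : L)) < 1 := by
  have hexp : WithZero.exp (-((1 : ℕ) : ℤ)) < (1 : WithZero (Multiplicative ℤ)) := by
    rw [← WithZero.exp_zero, WithZero.exp_lt_exp]
    norm_num
  obtain ⟨x, hx⟩ := hd m 1
  have hx1 : v (m - algebraMap L M x) < 1 := lt_of_le_of_lt hx hexp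
  have hxi : W.valuation L x ≤ 1 := by
    rw [← hv x]
    have e : algebraMap L M x = m - (m - algebraMap L M x) := by ring
    rw [e]
    exact (v.map_sub _ _).trans (max_le hm hx1.le)
  obtain ⟨z, hz⟩ := exists_val_lt_of_int W hxi 1
  refine ⟨z, ?_⟩
  have e : m - algebraMap L M (z : L) = (m - algebraMap L M x) + algebraMap L M (x - (z : L)) := by
    rw [map_sub]
    ring
  rw [e]
  refine v.map_add_lt hx1 ?_
  rw [hv]
  exact lt_of_le_of_lt hz hexp

end

section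
variable {L M : Type u} [Field L] [NumberField L] [Field M]
  [Algebra K M] [Algebra L M] [DecidableEq M]

private theorem valD_nsmul (W : HeightOneSpectrum (𝓞 L)) (v : Valuation M (WithZero (Multiplicative ℤ)))
    (hv : ∀ x : L, v (algebraMap L M x) = W.valuation L x)
    (hd : ∀ (m : M) (n : ℕ), ∃ x : L, v (m - algebraMap L M x) ≤ WithZero.exp (-(n : ℤ)))
    (h3 : v (bD M) = 1) (P : Pt M) : ∃ n : ℕ, 0 < n ∧ Ker v (n • P) := by
  by_contra hcon
  push Not at hcon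
  have hfin : Finite (𝓞 L ⧸ W.asIdeal) := Ideal.finiteQuotientOfFreeOfNeBot _ W.ne_bot
  have hX : ∀ n : ℕ, ∃ x : 𝓞 L, v (xc ((n + 1) • P) - algebraMap L M (x : L)) < 1 := fun n =>
    valD_int W v hv hd (not_ker _ (hcon (n + 1) n.succ_pos)).2.1
  have hY : ∀ n : ℕ, ∃ x : 𝓞 L, v (yc ((n + 1) • P) - algebraMap L M (x : L)) < 1 := fun n =>
    valD_int W v hv hd (not_ker _ (hcon (n + 1) n.succ_pos)).2.2
  choose X hX using hX
  choose Y hY using hY
  obtain ⟨i, j, hij, he⟩ := Finite.exists_ne_map_eq_of_infinite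
    (fun n : ℕ => (Ideal.Quotient.mk W.asIdeal (X n), Ideal.Quotient.mk W.asIdeal (Y n)))
  have hred : ∀ a b : 𝓞 L, Ideal.Quotient.mk W.asIdeal a = Ideal.Quotient.mk W.asIdeal b →
      v (algebraMap L M (a : L) - algebraMap L M (b : L)) < 1 := by
    intro a b hab
    rw [← map_sub, hv]
    have := (W.valuation_lt_one_iff_mem (K := L) (a - b)).2 (Ideal.Quotient.eq.1 hab)
    simpa using this
  have key : ∀ i j : ℕ, i < j → Ideal.Quotient.mk W.asIdeal (X i) =
      Ideal.Quotient.mk W.asIdeal (X j) → Ideal.Quotient.mk W.asIdeal (Y i) =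
      Ideal.Quotient.mk W.asIdeal (Y j) → False := by
    intro i j hij h1 h2
    have h1' := hred _ _ h1
    have h2' := hred _ _ h2
    have h4 : v (xc ((i + 1) • P) - xc ((j + 1) • P)) < 1 := by
      have e : xc ((i + 1) • P) - xc ((j + 1) • P) =
          (xc ((i + 1) • P) - algebraMap L M (X i : L)) +
          (algebraMap L M (X i : L) - algebraMap L M (X j : L)) -
          (xc ((j + 1) • P) - algebraMap L M (X j : L)) := by ring
      rw [e]
      exact v.map_sub_lt (v.map_add_lt (hX i) h1') (hX j)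
    have h5 : v (yc ((i + 1) • P) - yc ((j + 1) • P)) < 1 := by
      have e : yc ((i + 1) • P) - yc ((j + 1) • P) =
          (yc ((i + 1) • P) - algebraMap L M (Y i : L)) +
          (algebraMap L M (Y i : L) - algebraMap L M (Y j : L)) -
          (yc ((j + 1) • P) - algebraMap L M (Y j : L)) := by ring
      rw [e]
      exact v.map_sub_lt (v.map_add_lt (hY i) h2') (hY j)
    have h6 := red_inj v h3 (hcon (i + 1) i.succ_pos) (hcon (j + 1) j.succ_pos) h4 h5
    have h7 := ker_neg _ h6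
    have h8 : -((i + 1) • P - (j + 1) • P) = (j - i) • P := by
      obtain ⟨d, rfl⟩ := Nat.exists_eq_add_of_lt hij
      have e2 : i + d + 1 + 1 = (d + 1) + (i + 1) := by ring
      have e3 : i + d + 1 - i = d + 1 := by omega
      rw [e3, neg_sub, sub_eq_iff_eq_add, e2, add_nsmul]
    rw [h8] at h7
    exact hcon (j - i) (Nat.sub_pos_of_lt hij) h7
  have he1 := congrArg Prod.fst he
  have he2 := congrArg Prod.snd he
  rcases lt_or_gt_of_ne hij with h | h
  · exact key i j h he1 he2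
  · exact key j i h he1.symm he2.symm

end

theorem exists_ker_cM {L M : Type u} [Field L] [NumberField L] [Algebra K L] [DecidableEq L]
    [Field M] [Algebra K M] [Algebra L M] [IsScalarTower K L M] [DecidableEq M]
    {β : 𝓞 K} {ℓ q : ℕ} (h : PD β ℓ q) (W : HeightOneSpectrum (𝓞 L))
    (v : Valuation M (WithZero (Multiplicative ℤ)))
    (hv : ∀ x : L, v (algebraMap L M x) = W.valuation L x)
    (hd : ∀ (m : M) (n : ℕ), ∃ x : L, v (m - algebraMap L M x) ≤ WithZero.exp (-(n : ℤ)))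
    {R : Pt L} (hR : Ord β R) (hW : W.valuation L (algebraMap K L (β : K)) < 1) (P : Pt M) :
    ∃ c : 𝓞 K, ¬ β ∣ c ∧ Ker v (sm M c P) := by
  have h3 : v (bD M) = 1 := by
    have e := hv (bD L)
    rw [bD, map_intCast] at e
    rw [bD, e]
    exact h.bad_pi hW
  have hvK : v (algebraMap K M (β : K)) < 1 := by
    rw [IsScalarTower.algebraMap_apply K L M, hv]
    exact hW
  obtain ⟨n, hn, h1⟩ := valD_nsmul W v hv hd h3 P
  obtain ⟨k, c, hk, hc⟩ := valC_pow h.prime hn.ne'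
  refine ⟨c, hc, ?_⟩
  rw [← sm_nat, hk] at h1
  clear hk
  induction k with
  | zero => rwa [pow_zero, one_mul] at h1
  | succ k ih =>
    apply ih
    apply ker_of_sm v h.prime hvK h3
    rw [pow_succ', mul_assoc, map_mul] at h1
    exact h1

theorem phi_inj {β : 𝓞 K} {ℓ : ℕ} (h : PD β ℓ ℓ) {φ : 𝓞 K →+ ZMod ℓ} (hφ : φ ≠ 0)
    (hk : ∀ x : 𝓞 K, β ∣ x → φ x = 0) {x : 𝓞 K} (hx : φ x = 0) : β ∣ x := by
  by_contra hcon
  have hF : Fact ℓ.Prime := ⟨h.hl⟩
  have hcard : Nat.card (𝓞 K ⧸ Ideal.span {β}) = ℓ := by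
    have h1 := h.norm
    rwa [Ideal.absNorm_apply, Submodule.cardQuot_apply] at h1
  have hne : Ideal.Quotient.mk (Ideal.span {β}) x ≠ 0 := by
    intro h0
    rw [Ideal.Quotient.eq_zero_iff_mem, Ideal.mem_span_singleton] at h0
    exact hcon h0
  have htop := zmultiples_eq_top_of_prime_card hcard hne
  apply hφ
  refine AddMonoidHom.ext fun y => ?_
  have hy : Ideal.Quotient.mk (Ideal.span {β}) y ∈
      AddSubgroup.zmultiples (Ideal.Quotient.mk (Ideal.span {β}) x) := by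
    rw [htop]
    exact AddSubgroup.mem_top _
  obtain ⟨m, hm⟩ := AddSubgroup.mem_zmultiples_iff.1 hy
  have h2 : β ∣ m • x - y := by
    rw [← Ideal.mem_span_singleton, ← Ideal.Quotient.eq, map_zsmul]
    exact hm
  have h3 := hk _ h2
  rw [map_sub, map_zsmul, hx, smul_zero, zero_sub, neg_eq_zero] at h3
  rw [h3, AddMonoidHom.zero_apply]

end Pool.Agent.Lib.MP_1a91b9_nuX.DY
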