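import Pool.Agent.Lib.MP_1a91b9_nuX.DY.Core
import Pool.Agent.Lib.MP_1a91b9_nuX.DY.Val

/-!
# DY: the Kummer class of a point at the places above `cj ϖ` (split case)

Port of MP_1a91b9_nuT/DY/Td.lean to the curves `y² = x³ + D`.
-/

set_option autoImplicit false

namespace Pool.Agent.Lib.MP_1a91b9_nuX.DY

variable [Pool.Agent.Lib.MP_1a91b9_nuT.CD]

open NumberField IsDedekindDomain WeierstrassCurve Pool.Agent.Lib.MP_1a91b9_nuT
open Pool.Agent.Lib.MP_1a91b9_nuX.DB Pool.Agent.Lib.MP_1a91b9_nuX.DX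

universe u

variable [HC]

/-- the automorphisms over `N` which restrict to the identity of `N₂` -/
private noncomputable def TDA_hom (F N N₂ L : Type u) [Field F] [NumberField F] [Field N] [NumberField N]
    [Field N₂] [NumberField N₂] [Field L] [NumberField L] [Algebra F N] [Algebra F N₂]
    [Algebra F L] [Algebra N L] [Algebra N₂ L] [IsScalarTower F N L] [IsScalarTower F N₂ L]
    [IsGalois F N₂] : Gal(L/N) →* Gal(N₂/F) :=
  MonoidHom.mk' (fun σ => AlgEquiv.restrictNormal (AlgEquiv.restrictScalars F σ) N₂) (by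
    intro σ τ
    apply AlgEquiv.ext
    intro x
    apply (algebraMap N₂ L).injective
    rw [AlgEquiv.restrictNormal_commutes, AlgEquiv.mul_apply, AlgEquiv.restrictNormal_commutes,
      AlgEquiv.restrictNormal_commutes]
    rfl)

private theorem TDA_card {ι κ : Type u} [Group ι] [Group κ] [Finite κ] (f : ι →* κ) :
    f.ker.index ≤ Nat.card κ := by
  rw [Subgroup.index_ker]
  exact Subgroup.card_le_card_group _

section
variable {F N N₂ L : Type u} [Field F] [NumberField F] [Algebra K F] [Field N] [NumberField N]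
  [Algebra K N] [Field N₂] [NumberField N₂] [Algebra K N₂] [Field L] [NumberField L] [Algebra K L]
  [Algebra F N] [Algebra F N₂] [Algebra F L] [Algebra N L] [Algebra N₂ L]
  [IsScalarTower K F N] [IsScalarTower K F N₂] [IsScalarTower K F L] [IsScalarTower K N L]
  [IsScalarTower K N₂ L] [IsScalarTower F N L] [IsScalarTower F N₂ L]
  [DecidableEq F] [DecidableEq N] [DecidableEq N₂] [DecidableEq L]
  [IsGalois F N] [IsGalois F N₂] [IsGalois F L]

  {ϖ : 𝓞 K} {ℓ q : ℕ} {P : Pt F} {P₀ : Pt N} {P₂ : Pt N₂} {ζ : L} {Q : Pt L}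
  (D : TD ϖ ℓ q P P₀ P₂ ζ Q)
include D

theorem td_od (hcop : IsCoprime ϖ (cj ϖ))
    (hun : ∀ v : HeightOneSpectrum (𝓞 F), v.valuation F (ℓ : F) < 1 → od v (ℓ : F) = 1)
    {φ : 𝓞 K →+ ZMod ℓ} (hφ : φ ≠ 0) {y : Nˣ} {α : L} (hK : KC F ϖ ℓ P₀ P₂ ζ Q φ y α)
    (w : HeightOneSpectrum (𝓞 N)) (hw : w.valuation N (algebraMap K N (cj ϖ : K)) < 1)
    (hP : Ker ((w.under (𝓞 F)).valuation F) P) : (ℓ : ℤ) ∣ od w (y : N) := by
  classical
  have hGal : IsGalois N L := IsGalois.tower_top_of_isGalois F N L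
  have h := D.pd
  have hℓ : ℓ.Prime := h.hl
  have hq : q = ℓ := by
    rcases pd_cases h with ⟨h1, -⟩ | ⟨-, h1⟩
    · exact h1
    · exfalso
      rw [h1] at hcop
      exact h.prime.not_isUnit (isCoprime_self.1 hcop)
  have hc : PD (cj ϖ) ℓ ℓ := by
    have h1 := pd_cj h
    rw [hq] at h1
    exact h1
  obtain ⟨W, rfl⟩ := CF.exists_over (k := N) (N := L) w
  have hWc : W.valuation L (algebraMap K L (cj ϖ : K)) < 1 := by
    have e := (val_map_lt W (algebraMap K N (cj ϖ : K))).2 hw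
    rwa [← IsScalarTower.algebraMap_apply K N L] at e
  have hPF : Ker ((W.under (𝓞 F)).valuation F) P := by
    have h1 : (W.under (𝓞 F)) = (W.under (𝓞 N)).under (𝓞 F) := by
      apply HeightOneSpectrum.ext
      simp only [HeightOneSpectrum.under_asIdeal]
      rw [Ideal.under_under]
    rw [h1]
    exact hP
  have hR₂ : Ord (cj ϖ) (up L P₂) := (ord_up L).2 D.full₂.ord
  have hKR₂ : Ker (W.valuation L) (up L P₂) := 
    ker_of_val (W.valuation L) hc.prime hR₂ hWc (hc.bad_pi hWc)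
  have hKQ : Ker (W.valuation L) Q := by
    refine ker_of_sm (W.valuation L) hc.prime hWc (hc.bad_pi hWc) ?_
    rw [D.div]
    exact (ker_up L W P).2 hPF
  have hα0 : α ≠ 0 := by
    intro h0
    have h1 := hK.pow
    rw [h0, zero_pow hℓ.ne_zero] at h1
    have h2 : algebraMap N L (y : N) ≠ 0 := by
      rw [Ne, map_eq_zero]
      exact y.ne_zero
    exact h2 h1.symm
  have hkap : ∀ σ : Gal(L/N), ∃ x : 𝓞 K, ga σ Q - Q = sm L x (up L P₂) := by
    intro σ
    obtain ⟨x, hx⟩ := D.exists_kap (toF F σ)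
    rw [ga_toF] at hx
    exact ⟨x, hx⟩
  have hrs : ∀ σ : Gal(L/N), σ ∈ (TDA_hom F N N₂ L).ker → ga σ (up L P₂) = up L P₂ := by
    intro σ hσ
    have h1 : rs N₂ (toF F σ) = 1 := MonoidHom.mem_ker.1 hσ
    have h2 := ga_up (toF F σ) P₂
    rw [h1, ga_one, ga_toF] at h2
    exact h2
  have h2v : W.valuation L (2 : L) = 1 := by
    have h3 : ¬ cj ϖ ∣ ((2 : ℤ) : 𝓞 K) := by
      rw [hc.dvd_int_iff]
      intro h4
      have h5 := Int.le_of_dvd (by norm_num) h4
      have := hc.five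
      omega
    have h4 := pd_val_coprime hc (w := W) hWc h3
    have h5 : algebraMap K L ((((2 : ℤ) : 𝓞 K) : K)) = (2 : L) := by
      have h6 : ((((2 : ℤ) : 𝓞 K) : K)) = ((2 : ℤ) : K) := by
        change algebraMap (𝓞 K) K ((2 : ℤ) : 𝓞 K) = _
        rw [map_intCast]
      rw [h6, map_intCast]
      norm_num
    rw [h5] at h4
    exact h4
  have hR0 : up L P₂ ≠ 0 := by
    intro h6
    have h8 : cj ϖ ∣ (1 : 𝓞 K) := by
      rw [← hR₂ 1, h6, map_zero]
    exact hc.prime.not_isUnit (isUnit_of_dvd_one h8)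
  have htR0 : tc (up L P₂) ≠ 0 := fun h6 => hR0 (ker_tc_zero (W.valuation L) hKR₂ h6)
  refine core hℓ W (y := (y : N)) (α := α) y.ne_zero hK.pow (TDA_hom F N N₂ L).ker ?_ ?_
    (T := tc Q) (ker_tc_lt (W.valuation L) hKQ).le ?_
  · have hfin : FiniteDimensional F N₂ := Module.Finite.of_restrictScalars_finite ℚ F N₂
    have h1 : (TDA_hom F N N₂ L).ker.index ≤ Nat.card Gal(N₂/F) := TDA_card _
    have h2 : Module.finrank F N₂ + 1 = ℓ := Full.card hc D.full₂
    rw [IsGalois.card_aut_eq_finrank] at h1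
    omega
  · intro σ hσ hσα
    obtain ⟨x, hx⟩ := hkap σ
    have h1 := hK.act σ x hx
    rw [hσα] at h1
    have h2 : ζ ^ (φ x).val = 1 := by
      have h3 : ζ ^ (φ x).val * α = 1 * α := by rw [one_mul]; exact h1.symm
      exact mul_right_cancel₀ hα0 h3
    have h3 := (D.zeta.pow_eq_one_iff_dvd _).1 h2
    have : NeZero ℓ := ⟨hℓ.ne_zero⟩
    have h4 := Nat.eq_zero_of_dvd_of_lt h3 (ZMod.val_lt _)
    have h5 : φ x = 0 := (ZMod.val_eq_zero _).1 h4
    have h6 : cj ϖ ∣ x := phi_inj hc hφ hK.ker h5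
    rw [(hR₂ x).2 h6, sub_eq_zero] at hx
    have hP₂ := hrs σ hσ
    have h7 : toF F σ = 1 := by
      refine D.gen _ ?_ ?_ ?_ ?_
      · rw [ga_toF, ga_up_self]
      · rw [ga_toF]
        exact hP₂
      · rw [ga_toF, hx]
      · exact D.chi_fix _ (by rw [ga_toF, ga_up_self]) (by rw [ga_toF]; exact hP₂)
    refine AlgEquiv.ext fun z => ?_
    have h8 := congrArg (fun g : Gal(L/F) => g z) h7
    exact h8
  · intro σ hσ ξ hξ1 hξℓ hσα
    obtain ⟨x, hx⟩ := hkap σ
    have hxd : ¬ cj ϖ ∣ x := by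
      intro h1
      have h2 := hK.act σ x hx
      rw [hK.ker x h1, ZMod.val_zero, pow_zero, one_mul, hσα] at h2
      apply hξ1
      have h3 : ξ * α = 1 * α := by rw [one_mul]; exact h2
      exact mul_right_cancel₀ hα0 h3
    have hKs : Ker (W.valuation L) (ga σ Q) := by
      have h1 : ga σ Q = Q + sm L x (up L P₂) := by rw [← hx]; abel
      rw [h1]
      exact (ker_add (W.valuation L) hKQ (ker_sm (W.valuation L) hKR₂ x)).1
    have htc : tc (ga σ Q) = σ (tc Q) := tc_pm _ Q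
    have h1 : W.valuation L (σ (tc Q) - tc Q) = W.valuation L (tc (up L P₂)) := by
      rw [← htc, ← tc_sub (W.valuation L) h2v hKs hKQ, hx]
      exact val_sm hc hR₂ W hWc hxd
    have h3 := od_root hℓ hξℓ hξ1 W
    have h4 := od_tcP hc (F := F) hun D.full₂ W hWc
    have h5 : ((ℓ : ℤ) - 1) * od W (ξ - 1) = ((ℓ : ℤ) - 1) * od W (tc (up L P₂)) := by
      rw [h3, h4]
    have hℓ1 : ((ℓ : ℤ) - 1) ≠ 0 := by
      have := hc.five
      omega
    have h6 := mul_left_cancel₀ hℓ1 h5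
    have h7 : W.valuation L (ξ - 1) = W.valuation L (tc (up L P₂)) := by
      rw [val_eq W (sub_ne_zero.2 hξ1), val_eq W htR0, h6]
    rw [h1, h7]

end

end Pool.Agent.Lib.MP_1a91b9_nuX.DY
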